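import Mathlib

/-!
# Sums along chains

`rk` is a rank, and `σ` lowers it by one and is injective on the elements of positive rank.  Then the
set is a disjoint union of chains, each of which has the ranks `0, …, L - 1` for some `L`.
-/

set_option autoImplicit false
set_option linter.unusedSectionVars false

open Finset

namespace Pool.Agent.H552.TO

/-- a downward closed finite set of numbers is an initial interval -/
lemma eq_range_of_down (s : Finset ℕ) (h : ∀ n, n + 1 ∈ s → n ∈ s) : s = range s.card := by
  have h1 : ∀ n ∈ s, ∀ m, m ≤ n → m ∈ s := by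
    intro n hn m hm
    induction n with
    | zero => have : m = 0 := by omega
              subst this; exact hn
    | succ k ih =>
      rcases Nat.lt_or_ge k m with h2 | h2
      · have : m = k + 1 := by omega
        subst this; exact hn
      · exact ih (h k hn) h2
  apply eq_of_subset_of_card_le
  · intro n hn
    have h2 : range (n + 1) ⊆ s := fun m hm => h1 n hn m (by rw [mem_range] at hm; omega)
    have h3 := card_le_card h2
    rw [card_range] at h3
    rw [mem_range]
    omega
  · rw [card_range]

section

variable {X : Type} [Fintype X] (rk : X → ℕ) (σ : X → X)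

lemma iter_rk (hσ : ∀ f, rk f ≠ 0 → rk (σ f) + 1 = rk f) (f : X) :
    ∀ k, k ≤ rk f → rk (σ^[k] f) + k = rk f := by
  intro k
  induction k with
  | zero => intro _; rfl
  | succ k ih =>
    intro hk
    have h1 := ih (by omega)
    rw [Function.iterate_succ_apply']
    have h2 := hσ (σ^[k] f) (by omega)
    omega

lemma iter_inj (hσ : ∀ f, rk f ≠ 0 → rk (σ f) + 1 = rk f)
    (hinj : ∀ f g, rk f ≠ 0 → rk g ≠ 0 → σ f = σ g → f = g) (f g : X) :
    ∀ k, k ≤ rk f → k ≤ rk g → σ^[k] f = σ^[k] g → f = g := by
  intro k
  induction k with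
  | zero => intro _ _ h; exact h
  | succ k ih =>
    intro hf hg h
    rw [Function.iterate_succ_apply', Function.iterate_succ_apply'] at h
    have h1 := iter_rk rk σ hσ f k (by omega)
    have h2 := iter_rk rk σ hσ g k (by omega)
    exact ih (by omega) (by omega) (hinj _ _ (by omega) (by omega) h)

/-- **Sums along chains** -/
theorem chain_sum (C : ℕ) (G : X → ℕ → ℝ)
    (hσ : ∀ f, rk f ≠ 0 → rk (σ f) + 1 = rk f)
    (hinj : ∀ f g, rk f ≠ 0 → rk g ≠ 0 → σ f = σ g → f = g)
    (hG : ∀ f, rk f ≠ 0 → G (σ f) = G f)
    (hC : ∀ f, rk f < C)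
    (hpos : ∀ f L, L ≤ C → 0 ≤ ∑ p ∈ range L, G f p) :
    0 ≤ ∑ f, G f (rk f) := by
  classical
  have hGi : ∀ f k, k ≤ rk f → G (σ^[k] f) = G f := by
    intro f k
    induction k with
    | zero => intro _; rfl
    | succ k ih =>
      intro hk
      have h1 := iter_rk rk σ hσ f k (by omega)
      rw [Function.iterate_succ_apply', hG _ (by omega), ih (by omega)]
  let base : X → X := fun f => σ^[rk f] f
  have hsum : ∑ f, G f (rk f) = ∑ g, ∑ f ∈ univ.filter (fun f => base f = g), G f (rk f) := by
    exact (sum_fiberwise univ base _).symm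
  rw [hsum]
  apply sum_nonneg
  intro g _
  set S := univ.filter (fun f => base f = g) with hS
  have hbase : ∀ f ∈ S, σ^[rk f] f = g := fun f hf => (mem_filter.1 hf).2
  have hGg : ∀ f ∈ S, G f (rk f) = G g (rk f) := by
    intro f hf
    rw [← hbase f hf, hGi f _ le_rfl]
  have hrinj : ∀ f ∈ S, ∀ f' ∈ S, rk f = rk f' → f = f' := by
    intro f hf f' hf' h
    apply iter_inj rk σ hσ hinj f f' (rk f) le_rfl h.le
    rw [hbase f hf, h, hbase f' hf']
  have h1 : ∑ f ∈ S, G f (rk f) = ∑ p ∈ S.image rk, G g p := by
    rw [sum_image hrinj]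
    exact sum_congr rfl hGg
  have h2 : S.image rk = range (S.image rk).card := by
    apply eq_range_of_down
    intro n hn
    rw [mem_image] at hn ⊢
    obtain ⟨f, hf, hfn⟩ := hn
    refine ⟨σ f, ?_, ?_⟩
    · rw [hS, mem_filter]
      refine ⟨mem_univ _, ?_⟩
      have h3 := hσ f (by omega)
      have h4 : rk (σ f) = n := by omega
      show σ^[rk (σ f)] (σ f) = g
      rw [h4, ← Function.iterate_succ_apply]
      have h5 := hbase f hf
      rw [hfn] at h5
      exact h5
    · have := hσ f (by omega)
      omega
  rw [h1, h2]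
  apply hpos
  have h3 : S.image rk ⊆ range C := by
    intro p hp
    rw [mem_image] at hp
    obtain ⟨f, _, rfl⟩ := hp
    exact mem_range.2 (hC f)
  have := card_le_card h3
  rwa [card_range] at this

end

end Pool.Agent.H552.TO
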