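import Mathlib
import Pool.Agent.H552.TO.Chain
import Pool.Graph.R_pool_sql_team_seeded_35f281b4.K7.H20.Slot3

/-!
# Moving an element among the elements which see it

Let `B` be a set of elements with the same lower elements and let `Q` contain `B` and all elements which
are above some but not all elements of `B`.  If `x` is in `B` and `y` is the last element of `Q` before
`x` in a linear extension, then the places of `x` and `y` can be exchanged.
-/

set_option autoImplicit false
set_option linter.unusedSectionVars false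

open Finset
open scoped Classical

namespace Pool.Agent.H552.TO

open Pool.Agent.H13R3.WB Pool.Agent.H931R3.Bal Pool.Agent.K7.H20.Slot

variable {P : Type} [Fintype P] [PartialOrder P] {n : ℕ}

/-- `B` is a set of elements with the same lower elements; the other elements of `Q` are above some
element of `B`, and the elements outside `Q` are above all or no elements of `B` -/
structure Seen (B Q : Finset P) : Prop where
  sub : B ⊆ Q
  low : ∀ a ∈ B, ∀ b ∈ B, ∀ w, w < a ↔ w < b
  abv : ∀ q ∈ Q, q ∉ B → ∃ b ∈ B, b < q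
  out : ∀ w, w ∉ Q → ∀ a ∈ B, ∀ b ∈ B, a < w → b < w

section

variable {B Q : Finset P}

lemma Seen.not_lt (h : Seen B Q) {x q : P} (hx : x ∈ B) (hq : q ∈ Q) : ¬ q < x := by
  intro hlt
  by_cases hqB : q ∈ B
  · exact lt_irrefl _ ((h.low x hx q hqB q).1 hlt)
  · obtain ⟨b, hb, hbq⟩ := h.abv q hq hqB
    exact lt_irrefl _ ((h.low x hx b hb b).1 (hbq.trans hlt))

lemma Seen.low_le (h : Seen B Q) {x q w : P} (hx : x ∈ B) (hq : q ∈ Q) (hw : w < x) : w < q := by
  by_cases hqB : q ∈ B
  · exact (h.low x hx q hqB w).1 hw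
  · obtain ⟨b, hb, hbq⟩ := h.abv q hq hqB
    exact ((h.low x hx b hb w).1 hw).trans hbq

lemma Seen.up_out (h : Seen B Q) {x q w : P} (hx : x ∈ B) (hq : q ∈ Q) (hw : w ∉ Q) (hqw : q < w) :
    x < w := by
  by_cases hqB : q ∈ B
  · exact h.out w hw q hqB x hx hqw
  · obtain ⟨b, hb, hbq⟩ := h.abv q hq hqB
    exact h.out w hw b hb x hx (hbq.trans hqw)

/-- the elements of `Q` before `a` -/
noncomputable def bef (Q : Finset P) (f : LEn P n) (a : P) : Finset P :=
  Q.filter (fun q => f.1 q < f.1 a)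

lemma mem_bef {f : LEn P n} {a q : P} : q ∈ bef Q f a ↔ q ∈ Q ∧ f.1 q < f.1 a := by
  unfold bef
  rw [mem_filter]

/-- exchange the places of `x` and `y` -/
lemma swap_ok (h : Seen B Q) (f : LEn P n) {x y : P} (hx : x ∈ B) (hy : y ∈ Q)
    (hyx : f.1 y < f.1 x) (hmax : ∀ q ∈ Q, f.1 q < f.1 x → f.1 q ≤ f.1 y) :
    Monotone ((Equiv.swap x y).trans f.1) := by
  apply mono_of_lt
  intro a b hab
  have hfab := lt_of_mono f.2 hab
  simp only [Equiv.trans_apply]
  by_cases hax : a = x
  · subst hax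
    rw [Equiv.swap_apply_left]
    have hba : b ≠ a := hab.ne'
    have hby : b ≠ y := by
      rintro rfl
      exact lt_asymm hyx hfab
    rw [Equiv.swap_apply_of_ne_of_ne hba hby]
    exact hyx.trans hfab
  by_cases hbx : b = x
  · subst hbx
    have hay : a ≠ y := by
      rintro rfl
      exact h.not_lt hx hy hab
    rw [Equiv.swap_apply_left, Equiv.swap_apply_of_ne_of_ne hax hay]
    exact lt_of_mono f.2 (h.low_le hx hy hab)
  by_cases hay : a = y
  · subst hay
    rw [Equiv.swap_apply_right, Equiv.swap_apply_of_ne_of_ne hbx hab.ne']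
    by_contra hcon
    rw [not_lt] at hcon
    have h1 : f.1 b < f.1 x := lt_of_le_of_ne hcon (fun h2 => hbx (f.1.injective h2))
    by_cases hbQ : b ∈ Q
    · exact absurd (hmax b hbQ h1) (not_le.2 hfab)
    · have := lt_of_mono f.2 (h.up_out hx hy hbQ hab)
      exact lt_asymm this h1
  by_cases hby : b = y
  · subst hby
    rw [Equiv.swap_apply_right, Equiv.swap_apply_of_ne_of_ne hax hay]
    exact hfab.trans hyx
  rw [Equiv.swap_apply_of_ne_of_ne hax hay, Equiv.swap_apply_of_ne_of_ne hbx hby]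
  exact hfab

/-- the last element of `Q` before `x` -/
noncomputable def prd (Q : Finset P) (x : P) (f : LEn P n) : P :=
  if h : (bef Q f x).Nonempty then (exists_max_image (bef Q f x) (fun q => f.1 q) h).choose else x

lemma prd_spec {x : P} {f : LEn P n} (h : (bef Q f x).card ≠ 0) :
    prd Q x f ∈ Q ∧ f.1 (prd Q x f) < f.1 x ∧ ∀ q ∈ Q, f.1 q < f.1 x → f.1 q ≤ f.1 (prd Q x f) := by
  have h1 : (bef Q f x).Nonempty := card_pos.1 (Nat.pos_of_ne_zero h)
  have h2 : prd Q x f = (exists_max_image (bef Q f x) (fun q => f.1 q) h1).choose := by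
    unfold prd
    rw [dif_pos h1]
  have h3 := (exists_max_image (bef Q f x) (fun q => f.1 q) h1).choose_spec
  rw [← h2] at h3
  obtain ⟨h4, h5⟩ := h3
  rw [mem_bef] at h4
  exact ⟨h4.1, h4.2, fun q hq hq' => h5 q (mem_bef.2 ⟨hq, hq'⟩)⟩

/-- move `x` before the last element of `Q` before it -/
noncomputable def sw (Q : Finset P) (x : P) (f : LEn P n) : LEn P n :=
  if h : Monotone ((Equiv.swap x (prd Q x f)).trans f.1) then ⟨_, h⟩ else f

lemma sw_eq (h : Seen B Q) {x : P} (hx : x ∈ B) {f : LEn P n} (hf : (bef Q f x).card ≠ 0) :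
    (sw Q x f).1 = (Equiv.swap x (prd Q x f)).trans f.1 := by
  obtain ⟨h1, h2, h3⟩ := prd_spec hf
  have h4 := swap_ok h f hx h1 h2 h3
  unfold sw
  rw [dif_pos h4]

lemma sw_x (h : Seen B Q) {x : P} (hx : x ∈ B) {f : LEn P n} (hf : (bef Q f x).card ≠ 0) :
    (sw Q x f).1 x = f.1 (prd Q x f) := by
  rw [sw_eq h hx hf, Equiv.trans_apply, Equiv.swap_apply_left]

lemma sw_y (h : Seen B Q) {x : P} (hx : x ∈ B) {f : LEn P n} (hf : (bef Q f x).card ≠ 0) :
    (sw Q x f).1 (prd Q x f) = f.1 x := by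
  rw [sw_eq h hx hf, Equiv.trans_apply, Equiv.swap_apply_right]

lemma sw_w (h : Seen B Q) {x : P} (hx : x ∈ B) {f : LEn P n} (hf : (bef Q f x).card ≠ 0) {w : P}
    (h1 : w ≠ x) (h2 : w ≠ prd Q x f) : (sw Q x f).1 w = f.1 w := by
  rw [sw_eq h hx hf, Equiv.trans_apply, Equiv.swap_apply_of_ne_of_ne h1 h2]

/-- the rank falls by one -/
lemma sw_rank (h : Seen B Q) {x : P} (hx : x ∈ B) {f : LEn P n} (hf : (bef Q f x).card ≠ 0) :
    (bef Q (sw Q x f) x).card + 1 = (bef Q f x).card := by
  obtain ⟨h1, h2, h3⟩ := prd_spec hf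
  have hne : prd Q x f ≠ x := by
    intro h4
    rw [h4] at h2
    exact lt_irrefl _ h2
  have h4 : bef Q f x = insert (prd Q x f) (bef Q (sw Q x f) x) := by
    ext q
    rw [mem_insert, mem_bef, mem_bef, sw_x h hx hf]
    by_cases hq1 : q = prd Q x f
    · subst hq1
      simp [h1, h2]
    by_cases hq2 : q = x
    · subst hq2
      rw [sw_x h hx hf]
      simp [hq1]
    rw [sw_w h hx hf hq2 hq1]
    constructor
    · rintro ⟨h5, h6⟩
      exact Or.inr ⟨h5, lt_of_le_of_ne (h3 q h5 h6) fun h7 => hq1 (f.1.injective h7)⟩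
    · rintro (h5 | ⟨h5, h6⟩)
      · exact absurd h5 hq1
      · exact ⟨h5, h6.trans h2⟩
  rw [h4, card_insert_of_notMem]
  rw [mem_bef, sw_x h hx hf, sw_y h hx hf]
  rintro ⟨-, h5⟩
  exact lt_asymm h2 h5

/-- `prd` can be recovered -/
lemma sw_succ (h : Seen B Q) {x : P} (hx : x ∈ B) {f : LEn P n} (hf : (bef Q f x).card ≠ 0) :
    prd Q x f ∈ Q ∧ (sw Q x f).1 x < (sw Q x f).1 (prd Q x f) ∧
      ∀ q ∈ Q, (sw Q x f).1 x < (sw Q x f).1 q → (sw Q x f).1 (prd Q x f) ≤ (sw Q x f).1 q := by
  obtain ⟨h1, h2, h3⟩ := prd_spec hf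
  refine ⟨h1, by rw [sw_x h hx hf, sw_y h hx hf]; exact h2, ?_⟩
  intro q hq hq'
  rw [sw_x h hx hf] at hq'
  rw [sw_y h hx hf]
  by_cases hq1 : q = prd Q x f
  · subst hq1
    rw [sw_y h hx hf]
  by_cases hq2 : q = x
  · subst hq2
    rw [sw_x h hx hf] at hq'
    exact absurd hq' (lt_irrefl _)
  rw [sw_w h hx hf hq2 hq1] at hq' ⊢
  by_contra hcon
  rw [not_le] at hcon
  exact absurd (h3 q hq hcon) (not_le.2 hq')

lemma sw_inj (h : Seen B Q) {x : P} (hx : x ∈ B) {f g : LEn P n} (hf : (bef Q f x).card ≠ 0)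
    (hg : (bef Q g x).card ≠ 0) (he : sw Q x f = sw Q x g) : f = g := by
  obtain ⟨f1, f2, f3⟩ := sw_succ h hx hf
  obtain ⟨g1, g2, g3⟩ := sw_succ h hx hg
  have h1 : prd Q x f = prd Q x g := by
    apply (sw Q x f).1.injective
    apply le_antisymm
    · apply f3 _ g1
      rw [he]
      exact g2
    · rw [he]
      apply g3 _ f1
      rw [← he]
      exact f2
  have h2 := sw_eq h hx hf
  have h3 := sw_eq h hx hg
  rw [he, h3, ← h1] at h2
  apply Subtype.ext
  have h4 : (Equiv.swap x (prd Q x f)).trans ((Equiv.swap x (prd Q x f)).trans f.1) =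
      (Equiv.swap x (prd Q x f)).trans ((Equiv.swap x (prd Q x f)).trans g.1) := by
    rw [h2]
  have h5 : ∀ e : P ≃ Fin n, (Equiv.swap x (prd Q x f)).trans ((Equiv.swap x (prd Q x f)).trans e) = e := by
    intro e
    ext w
    simp
  rwa [h5, h5] at h4

/-- the number of the elements of `Q` other than `x` before `a` -/
noncomputable def pos (Q : Finset P) (x : P) (f : LEn P n) (a : P) : ℕ :=
  (bef (Q.erase x) f a).card

lemma pos_sw (h : Seen B Q) {x : P} (hx : x ∈ B) {f : LEn P n} (hf : (bef Q f x).card ≠ 0) {a : P}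
    (ha : a ∈ Q) (hax : a ≠ x) : pos Q x (sw Q x f) a = pos Q x f a := by
  obtain ⟨h1, h2, h3⟩ := prd_spec hf
  unfold pos
  congr 1
  ext q
  rw [mem_bef, mem_bef]
  apply and_congr_right
  intro hq
  rw [mem_erase] at hq
  by_cases hq1 : q = prd Q x f
  · by_cases ha1 : a = prd Q x f
    · rw [hq1, ha1]
      simp only [lt_irrefl]
    · rw [sw_w h hx hf hax ha1, hq1, sw_y h hx hf]
      constructor
      · exact fun h4 => h2.trans h4
      · intro h4
        rcases lt_trichotomy (f.1 x) (f.1 a) with h5 | h5 | h5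
        · exact h5
        · exact absurd (f.1.injective h5).symm hax
        · exact absurd (h3 a ha h5) (not_le.2 h4)
  · rw [sw_w h hx hf hq.1 hq1]
    by_cases ha1 : a = prd Q x f
    · rw [ha1, sw_y h hx hf]
      constructor
      · intro h4
        exact lt_of_le_of_ne (h3 q hq.2 h4) fun h5 => hq1 (f.1.injective h5)
      · exact fun h4 => h4.trans h2
    · rw [sw_w h hx hf hax ha1]

/-- comparison of `x` with another element of `Q` -/
lemma lt_iff_pos {x : P} (hx : x ∈ Q) (f : LEn P n) {a : P} (ha : a ∈ Q) (hax : a ≠ x) :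
    f.1 x < f.1 a ↔ (bef Q f x).card ≤ pos Q x f a := by
  unfold pos
  constructor
  · intro h1
    apply card_le_card
    intro q hq
    rw [mem_bef] at hq ⊢
    refine ⟨mem_erase.2 ⟨?_, hq.1⟩, hq.2.trans h1⟩
    rintro rfl
    exact lt_irrefl _ hq.2
  · intro h1
    by_contra hcon
    rw [not_lt] at hcon
    have h2 : f.1 a < f.1 x := lt_of_le_of_ne hcon fun h3 => hax (f.1.injective h3)
    have h3 : insert a (bef (Q.erase x) f a) ⊆ bef Q f x := by
      intro q hq
      rw [mem_insert] at hq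
      rcases hq with rfl | hq
      · exact mem_bef.2 ⟨ha, h2⟩
      · rw [mem_bef] at hq ⊢
        exact ⟨mem_of_mem_erase hq.1, hq.2.trans h2⟩
    have h4 := card_le_card h3
    rw [card_insert_of_notMem (by rw [mem_bef]; exact fun h5 => lt_irrefl _ h5.2)] at h4
    omega

/-- the number of elements of `Q` before another element -/
lemma bef_card {x : P} (hx : x ∈ Q) (f : LEn P n) {a : P} (hax : a ≠ x) :
    (bef Q f a).card = pos Q x f a + if f.1 x < f.1 a then 1 else 0 := by
  unfold pos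
  split_ifs with h1
  · have h2 : bef Q f a = insert x (bef (Q.erase x) f a) := by
      ext q
      rw [mem_insert, mem_bef, mem_bef, mem_erase]
      by_cases hq : q = x
      · subst hq
        simp [hx, h1]
      · simp [hq]
    rw [h2, card_insert_of_notMem]
    rw [mem_bef, mem_erase]
    exact fun h3 => h3.1.1 rfl
  · congr 1
    ext q
    rw [mem_bef, mem_bef, mem_erase]
    constructor
    · rintro ⟨h2, h3⟩
      refine ⟨⟨?_, h2⟩, h3⟩
      rintro rfl
      exact h1 h3
    · rintro ⟨⟨-, h2⟩, h3⟩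
      exact ⟨h2, h3⟩

/-- different elements of `Q` have different positions -/
lemma pos_inj {x : P} (f : LEn P n) {a b : P} (ha : a ∈ Q.erase x) (hb : b ∈ Q.erase x)
    (h : pos Q x f a = pos Q x f b) : a = b := by
  have key : ∀ a b : P, a ∈ Q.erase x → f.1 a < f.1 b → pos Q x f a < pos Q x f b := by
    intro a b ha hab
    unfold pos
    apply card_lt_card
    rw [ssubset_iff_of_subset]
    · exact ⟨a, mem_bef.2 ⟨ha, hab⟩, fun h1 => lt_irrefl _ (mem_bef.1 h1).2⟩
    · intro q hq
      rw [mem_bef] at hq ⊢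
      exact ⟨hq.1, hq.2.trans hab⟩
  rcases lt_trichotomy (f.1 a) (f.1 b) with h1 | h1 | h1
  · exact absurd h (key a b ha h1).ne
  · exact f.1.injective h1
  · exact absurd h (key b a hb h1).ne'

end

end Pool.Agent.H552.TO
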