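import Mathlib
import Pool.Agent.H552.TO.Swap

/-!
# Two inequalities for elements with the same lower elements

The analogues of the claims of `Pool.Agent.K7.H20.Slot2`, where the place of an element of `B` is
counted among the elements of `Q` only.
-/

set_option autoImplicit false
set_option linter.unusedSectionVars false

open Finset
open scoped Classical

namespace Pool.Agent.H552.TO

open Pool.Agent.H13R3.WB Pool.Agent.H931R3.Bal Pool.Agent.K7.H20.Slot
open Pool.Agent.R636.BG (inc mem_inc)

variable {P : Type} [Fintype P] [PartialOrder P] {n : ℕ} {B Q : Finset P}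

lemma Seen.bef_sub (h : Seen B Q) {x : P} (hx : x ∈ B) (f : LEn P n) : bef Q f x ⊆ Q ∩ inc x := by
  intro q hq
  rw [mem_bef] at hq
  rw [mem_inter, mem_inc]
  refine ⟨hq.1, ?_, ?_⟩
  · intro h1
    exact absurd (f.2 h1) (not_le.2 hq.2)
  · intro h1
    rcases h1.lt_or_eq with h2 | h2
    · exact h.not_lt hx hq.1 h2
    · rw [h2] at hq
      exact lt_irrefl _ hq.2

/-- **Claim A** -/
theorem claimA (h : Seen B Q) {x : P} (hx : x ∈ B) (S : Finset P) (hS : S ⊆ B.erase x) :
    0 ≤ ∑ f : LEn P n, (((S.filter (fun a => f.1 x < f.1 a)).card : ℝ) -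
      2 * S.card / 3 + 2 * S.card / (9 * (S.card + 1)) * (2 * ((bef Q f x).card : ℝ) + 1)) := by
  have hSQ : ∀ a ∈ S, a ∈ Q.erase x := by
    intro a ha
    have h1 := mem_erase.1 (hS ha)
    exact mem_erase.2 ⟨h1.1, h.sub h1.2⟩
  have key := chain_sum (X := LEn P n) (fun f => (bef Q f x).card) (sw Q x) (Q.card + 1)
    (fun f p => ((S.filter (fun a => p ≤ pos Q x f a)).card : ℝ) - 2 * S.card / 3 +
      2 * S.card / (9 * (S.card + 1)) * (2 * (p : ℝ) + 1))
    (fun f hf => sw_rank h hx hf) (fun f g hf hg he => sw_inj h hx hf hg he) ?_ ?_ ?_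
  · refine le_of_le_of_eq key (sum_congr rfl fun f _ => ?_)
    have h1 : S.filter (fun a => (bef Q f x).card ≤ pos Q x f a) =
        S.filter (fun a => f.1 x < f.1 a) := by
      apply filter_congr
      intro a ha
      have h2 := mem_erase.1 (hSQ a ha)
      exact (lt_iff_pos (h.sub hx) f h2.2 h2.1).symm
    simp only [h1]
  · intro f hf
    funext p
    have h1 : S.filter (fun a => p ≤ pos Q x (sw Q x f) a) = S.filter (fun a => p ≤ pos Q x f a) := by
      apply filter_congr
      intro a ha
      have h2 := mem_erase.1 (hSQ a ha)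
      rw [pos_sw h hx hf h2.2 h2.1]
    simp only [h1]
  · intro f
    have h1 : (bef Q f x).card ≤ Q.card := card_le_card (fun q hq => (mem_bef.1 hq).1)
    show (bef Q f x).card < Q.card + 1
    omega
  · intro f L _
    refine le_trans (quad S.card L) (sum_le_sum fun p _ => ?_)
    have h1 : S.card - p ≤ (S.filter (fun a => p ≤ pos Q x f a)).card := by
      have h2 : (S.filter (fun a => ¬ p ≤ pos Q x f a)).card ≤ (range p).card := by
        apply card_le_card_of_injOn (fun a => pos Q x f a)
        · intro a ha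
          rw [coe_filter] at ha
          rw [coe_range, Set.mem_Iio]
          exact not_le.1 ha.2
        · intro a ha b hb hab
          rw [coe_filter] at ha hb
          exact pos_inj f (hSQ a ha.1) (hSQ b hb.1) hab
      rw [card_range] at h2
      have h3 := card_filter_add_card_filter_not (s := S) (p := fun a => p ≤ pos Q x f a)
      omega
    have h1' : ((S.card - p : ℕ) : ℝ) ≤ ((S.filter (fun a => p ≤ pos Q x f a)).card : ℝ) := by
      exact_mod_cast h1
    linarith

/-- **Claim B** -/
theorem claimB (h : Seen B Q) {x y : P} (hx : x ∈ B) (hy : y ∈ B) (hxy : x ≠ y) {K : ℕ}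
    (hKx : (Q ∩ inc x).card ≤ K) (hKy : (Q ∩ inc y).card ≤ K) :
    0 ≤ ∑ f : LEn P n, (((K : ℝ) + 2) * (if f.1 x < f.1 y then 1 else 0) -
      (((bef Q f y).card : ℝ) + 1)) := by
  have hxQ := h.sub hx
  have hyQ := h.sub hy
  have hpy : ∀ f : LEn P n, pos Q x f y + 1 ≤ K + 1 := by
    intro f
    have h1 : pos Q x f y ≤ (bef Q f y).card := by
      unfold pos
      apply card_le_card
      intro q hq
      rw [mem_bef] at hq ⊢
      exact ⟨mem_of_mem_erase hq.1, hq.2⟩
    have h2 := card_le_card (h.bef_sub hy f)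
    omega
  have key := chain_sum (X := LEn P n) (fun f => (bef Q f x).card) (sw Q x) (K + 1)
    (fun f p => ((K : ℝ) + 1) * (if p ≤ pos Q x f y then 1 else 0) - ((pos Q x f y : ℝ) + 1))
    (fun f hf => sw_rank h hx hf) (fun f g hf hg he => sw_inj h hx hf hg he) ?_ ?_ ?_
  · refine le_of_le_of_eq key (sum_congr rfl fun f _ => ?_)
    have h1 := lt_iff_pos hxQ f hyQ hxy.symm
    have h2 := bef_card hxQ f (a := y) hxy.symm
    rw [h2]
    by_cases h3 : f.1 x < f.1 y
    · rw [if_pos h3, if_pos h3, if_pos (h1.1 h3)]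
      push_cast
      ring
    · rw [if_neg h3, if_neg h3, if_neg (fun h4 => h3 (h1.2 h4))]
      push_cast
      ring
  · intro f hf
    funext p
    rw [pos_sw h hx hf hyQ hxy.symm]
  · intro f
    have h1 := card_le_card (h.bef_sub hx f)
    show (bef Q f x).card < K + 1
    omega
  · intro f L hL
    have h1 := hpy f
    rw [sum_sub_distrib, ← mul_sum, sum_boole, sum_const, card_range, nsmul_eq_mul]
    set j := pos Q x f y with hj
    have h2 : (range L).filter (fun p => p ≤ j) = range (min L (j + 1)) := by
      ext p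
      rw [mem_filter, mem_range, mem_range]
      omega
    rw [h2, card_range]
    have hj0 : (0 : ℝ) ≤ j := by positivity
    have hL0 : (0 : ℝ) ≤ L := by positivity
    have hjK : (j : ℝ) ≤ K := by
      have : j ≤ K := by omega
      exact_mod_cast this
    have hLK : (L : ℝ) ≤ (K : ℝ) + 1 := by exact_mod_cast hL
    rcases Nat.le_total L (j + 1) with h3 | h3
    · rw [min_eq_left h3]
      nlinarith
    · rw [min_eq_right h3]
      push_cast
      nlinarith

end Pool.Agent.H552.TO
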