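import Mathlib
import Pool.Agent.H552.TO.Claims

/-!
# Elements with the same lower elements, seen by few elements

If `B` is a set of `m` elements with the same lower elements, `Q` contains `B` and the elements above
some but not all elements of `B`, and each element of `B` is incomparable to at most `K` elements of
`Q`, where `4 K + 12 ≤ 9 m`, then there is a gap above `1/3`.
-/

set_option autoImplicit false
set_option linter.unusedSectionVars false

open Finset
open scoped Classical

namespace Pool.Agent.H552.TO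

open Pool.Agent.H13R3.WB Pool.Agent.H931R3.Bal Pool.Agent.K7.H20 Pool.Agent.R636.BG
open Pool.Agent.K7.H20.Slot (real_core exists_last)

section

variable {P : Type} [Fintype P] [PartialOrder P] {n : ℕ} {B Q : Finset P}

/-- the combination of the two claims -/
theorem core (h : Seen B Q) {K : ℕ} (hK : ∀ a ∈ B, (Q ∩ inc a).card ≤ K) (h3 : 3 ≤ B.card) {c : ℝ}
    {x y : P} (hx : x ∈ B) (hy : y ∈ B) (hxy : x ≠ y) (h1 : prob P x y ≤ c)
    (h2 : ∀ z ∈ B, z ≠ x → z ≠ y → prob P y z ≤ c) :
    6 * ((B.card : ℝ) - 1) ≤ 4 * (K + 2) * c - 2 + 9 * ((B.card : ℝ) - 1) * c := by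
  set n := Fintype.card P with hn
  have hne : Nonempty (LEn P n) := LEn_nonempty hn.symm
  set N : ℝ := (Fintype.card (LEn P n) : ℝ) with hN
  have hN0 : 0 < N := by
    rw [hN]
    exact_mod_cast Fintype.card_pos
  have hpr : ∀ a b : P, ∑ f : LEn P n, (if f.1 a < f.1 b then (1 : ℝ) else 0) = prob P a b * N := by
    intro a b
    rw [prob_eq hn.symm]
    unfold pr
    rw [div_mul_cancel₀ _ hN0.ne']
  -- the set `S`
  set S := (B.erase x).erase y with hS
  have hyx : y ∈ B.erase x := mem_erase.2 ⟨hxy.symm, hy⟩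
  have hSc : S.card + 2 = B.card := by
    rw [hS, card_erase_of_mem hyx, card_erase_of_mem hx]
    omega
  have hSr : (S.card : ℝ) = B.card - 2 := by
    have : ((S.card + 2 : ℕ) : ℝ) = B.card := by rw [hSc]
    push_cast at this
    linarith
  have hS1 : (1 : ℝ) ≤ S.card := by
    have : 1 ≤ S.card := by omega
    exact_mod_cast this
  have hSmem : ∀ a ∈ S, a ∈ B ∧ a ≠ x ∧ a ≠ y := by
    intro a ha
    rw [hS, mem_erase, mem_erase] at ha
    exact ⟨ha.2.2, ha.2.1, ha.1⟩
  have cA := claimA (n := n) h hy S (fun a ha => mem_erase.2 ⟨(hSmem a ha).2.2, (hSmem a ha).1⟩)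
  have cB := claimB (n := n) h hx hy hxy (hK x hx) (hK y hy)
  set E : ℝ := ∑ f : LEn P n, ((bef Q f y).card : ℝ) with hE
  have eB : ∑ f : LEn P n, (((K : ℝ) + 2) * (if f.1 x < f.1 y then 1 else 0) -
      (((bef Q f y).card : ℝ) + 1)) = ((K : ℝ) + 2) * (prob P x y * N) - (E + N) := by
    rw [sum_sub_distrib, ← mul_sum, hpr, sum_add_distrib, hE, hN]
    simp only [sum_const, card_univ, nsmul_eq_mul, mul_one]
  rw [eB] at cB
  have eA : ∑ f : LEn P n, (((S.filter (fun a => f.1 y < f.1 a)).card : ℝ) -
      2 * S.card / 3 + 2 * S.card / (9 * (S.card + 1)) * (2 * ((bef Q f y).card : ℝ) + 1)) =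
      (∑ a ∈ S, prob P y a * N) - 2 * S.card / 3 * N +
        2 * S.card / (9 * (S.card + 1)) * (2 * E + N) := by
    rw [sum_add_distrib, sum_sub_distrib, ← mul_sum, sum_add_distrib, ← mul_sum, ← hE]
    simp only [sum_const, card_univ, nsmul_eq_mul, mul_one]
    rw [← hN]
    have h5 : ∑ f : LEn P n, ((S.filter (fun a => f.1 y < f.1 a)).card : ℝ) =
        ∑ a ∈ S, prob P y a * N := by
      have h5' : ∑ a ∈ S, prob P y a * N =
          ∑ a ∈ S, ∑ f : LEn P n, (if f.1 y < f.1 a then (1 : ℝ) else 0) :=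
        sum_congr rfl (fun a _ => (hpr y a).symm)
      rw [h5', sum_comm]
      apply sum_congr rfl
      intro f _
      rw [sum_boole]
    rw [h5]
    ring
  rw [eA] at cA
  have h5 : ∑ a ∈ S, prob P y a * N ≤ S.card * c * N := by
    have : ∑ a ∈ S, prob P y a * N ≤ ∑ a ∈ S, c * N := by
      apply sum_le_sum
      intro a ha
      exact mul_le_mul_of_nonneg_right (h2 a (hSmem a ha).1 (hSmem a ha).2.1 (hSmem a ha).2.2) hN0.le
    refine this.trans (le_of_eq ?_)
    rw [sum_const, nsmul_eq_mul]
    ring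
  have h6 : ((K : ℝ) + 2) * (prob P x y * N) ≤ ((K : ℝ) + 2) * (c * N) := by
    apply mul_le_mul_of_nonneg_left _ (by positivity)
    exact mul_le_mul_of_nonneg_right h1 hN0.le
  -- divide by `N`
  set e : ℝ := E / N with he
  have hEe : E = e * N := by rw [he]; field_simp
  rw [hEe] at cA cB
  have cB' : e + 1 ≤ ((K : ℝ) + 2) * c := by
    have h7 : (e + 1) * N ≤ (((K : ℝ) + 2) * c) * N := by linarith
    exact le_of_mul_le_mul_right h7 hN0
  have hS0 : (0 : ℝ) < S.card := by linarith
  have cA' : 0 ≤ c - 2 / 3 + 2 / (9 * ((S.card : ℝ) + 1)) * (2 * e + 1) := by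
    have h7 : 0 ≤ (S.card * N) * (c - 2 / 3 + 2 / (9 * ((S.card : ℝ) + 1)) * (2 * e + 1)) := by
      have h8 : (S.card * N) * (c - 2 / 3 + 2 / (9 * ((S.card : ℝ) + 1)) * (2 * e + 1)) =
          S.card * c * N - 2 * S.card / 3 * N +
            2 * S.card / (9 * ((S.card : ℝ) + 1)) * (2 * (e * N) + N) := by
        ring
      rw [h8]
      linarith
    exact nonneg_of_mul_nonneg_right h7 (mul_pos hS0 hN0)
  have h9 : 0 < (S.card : ℝ) + 1 := by linarith
  have cA'' := real_core hS0 cA'
  rw [hSr] at cA''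
  nlinarith

end

/-- **The gap** for elements with the same lower elements which are seen by few elements -/
theorem seen_gap : ∃ ε : ℝ, 0 < ε ∧ ε ≤ 1 / 200 ∧ ∀ (P : Type) [Fintype P] [PartialOrder P]
    (B Q : Finset P) (K : ℕ), Seen B Q → (∀ a ∈ B, (Q ∩ inc a).card ≤ K) →
    4 * K + 12 ≤ 9 * B.card → 1 / 3 + ε ≤ balance P := by
  obtain ⟨K0, ε0, h0, h01, -, -, hset⟩ := setup
  obtain ⟨ε1, h1, hcyc⟩ := cycle_gap
  obtain ⟨ε2, h2, hpair⟩ := pair_gap
  set ε : ℝ := min (1 / (54 * K0 + 200)) (min ε0 (min ε1 ε2)) with hεdef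
  have hK0 : (0 : ℝ) < 54 * K0 + 200 := by positivity
  have hε0 : 0 < ε := by positivity
  have e0 : ε ≤ 1 / (54 * K0 + 200) := min_le_left _ _
  have e1 : ε ≤ ε0 := (min_le_right _ _).trans (min_le_left _ _)
  have e2 : ε ≤ ε1 := (min_le_right _ _).trans ((min_le_right _ _).trans (min_le_left _ _))
  have e3 : ε ≤ ε2 := (min_le_right _ _).trans ((min_le_right _ _).trans (min_le_right _ _))
  refine ⟨ε, hε0, by linarith, ?_⟩
  intro P _ _ B Q K hS hK hBK
  by_contra hcon
  push Not at hcon
  -- few incomparable elements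
  have hthin : ∀ p : P, (inc p).card ≤ K0 := by
    rcases hset P with h | h
    · linarith
    · exact h.2
  have hunb : ∀ a b : P, min (prob P a b) (prob P b a) < 1 / 3 + ε := by
    intro a b
    refine lt_of_le_of_lt ?_ hcon
    unfold balance
    exact le_ciSup (f := fun p : P × P => min (prob P p.1 p.2) (prob P p.2 p.1))
      (Set.finite_range _).bddAbove (a, b)
  have anti : ∀ a ∈ B, ∀ b ∈ B, a ≠ b → b ∈ inc a := by
    intro a ha b hb hab
    rw [mem_inc]
    constructor
    · intro h
      exact hS.not_lt hb (hS.sub ha) (lt_of_le_of_ne h hab)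
    · intro h
      exact hS.not_lt ha (hS.sub hb) (lt_of_le_of_ne h hab.symm)
  have hBK0 : B.card ≤ K0 + 1 := by
    rcases B.eq_empty_or_nonempty with h | ⟨a, ha⟩
    · rw [h]; simp
    · have h3 : B.erase a ⊆ inc a := fun b hb => anti a ha b (mem_of_mem_erase hb) (ne_of_mem_erase hb).symm
      have h4 := card_le_card h3
      rw [card_erase_of_mem ha] at h4
      have := hthin a
      omega
  have hno : ∀ x : P, ¬ Relation.TransGen (fun a b : P => 1 / 2 < prob P a b) x x := by
    intro x hx
    have := hcyc P (Or.inl ⟨x, hx⟩)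
    linarith
  rcases Nat.lt_or_ge B.card 3 with hlt | h3
  · -- two elements
    have hK1 : K ≤ 1 ∧ B.card = 2 := by omega
    obtain ⟨a, b, hab, hBab⟩ := card_eq_two.1 hK1.2
    have ha : a ∈ B := by rw [hBab]; simp
    have hb : b ∈ B := by rw [hBab]; simp
    have hone : ∀ a ∈ B, ∀ b ∈ B, a ≠ b → ∀ w, a < w → b < w := by
      intro a ha b hb hab w haw
      by_cases hwQ : w ∈ Q
      · have hw : w ∉ inc b := by
          intro hw
          have h4 : ({a, w} : Finset P) ⊆ Q ∩ inc b := by
            intro p hp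
            rw [mem_insert, mem_singleton] at hp
            rw [mem_inter]
            rcases hp with rfl | rfl
            · exact ⟨hS.sub ha, anti b hb p ha hab.symm⟩
            · exact ⟨hwQ, hw⟩
          have h5 := card_le_card h4
          rw [card_pair haw.ne] at h5
          have := hK b hb
          omega
        rw [mem_inc] at hw
        by_cases h4 : b ≤ w
        · refine lt_of_le_of_ne h4 ?_
          rintro rfl
          have := anti a ha b hb hab
          rw [mem_inc] at this
          exact this.1 haw.le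
        · have h5 : w ≤ b := by
            by_contra h6
            exact hw ⟨h4, h6⟩
          have := anti a ha b hb hab
          rw [mem_inc] at this
          exact absurd (haw.le.trans h5) this.1
      · exact hS.out w hwQ a ha b hb haw
    have pg : Semi.PG ε2 P := fun a b hab => (hpair P).1 a b hab
    have := pg.twins hab (fun w => hS.low a ha b hb w)
      (fun w => ⟨hone a ha b hb hab w, hone b hb a ha hab.symm w⟩)
    linarith
  · -- the last two elements of `B`
    obtain ⟨x, hx, hx'⟩ := exists_last _ hno B (card_pos.1 (by omega))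
    obtain ⟨y, hy, hy'⟩ := exists_last _ hno (B.erase x) (card_pos.1 (by
      rw [card_erase_of_mem hx]
      omega))
    rw [mem_erase] at hy
    have half : ∀ a b : P, a ≠ b → ¬ 1 / 2 < prob P a b → prob P a b ≤ 1 / 3 + ε := by
      intro a b hab h4
      push Not at h4
      have h5 := prob_add hab
      have h6 := hunb a b
      have h7 : min (prob P a b) (prob P b a) = prob P a b := min_eq_left (by linarith)
      rw [h7] at h6
      exact h6.le
    have hc := core hS hK h3 hx hy.2 hy.1.symm (half x y hy.1.symm (hx' y hy.2))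
      (fun z hz hzx hzy => half y z hzy.symm (hy' z (mem_erase.2 ⟨hzx, hz⟩)))
    have r1 : (4 : ℝ) * K + 12 ≤ 9 * B.card := by exact_mod_cast hBK
    have r2 : (B.card : ℝ) ≤ K0 + 1 := by exact_mod_cast hBK0
    have r3 : ε * (54 * K0 + 200) ≤ 1 := by
      have := mul_le_mul_of_nonneg_right e0 hK0.le
      rwa [one_div, inv_mul_cancel₀ hK0.ne'] at this
    have r4 : 0 ≤ ε * ((9 * K0 + 9 - 4 * K - 12)) := by
      apply mul_nonneg hε0.le
      linarith
    have r5 : 0 ≤ ε * (K0 + 1 - B.card) := mul_nonneg hε0.le (by linarith)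
    nlinarith

end Pool.Agent.H552.TO
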