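import Mathlib
import Pool.Agent.H552.TO.Core

/-!
# Tangles

A tangle consists of two antichains `B`, `T`, the elements of `T` not being below elements of `B`, such
that every element of `B` is below some element of `T` and every element of `T` is above some element of
`B`, and no other element of the poset distinguishes two elements of `B`, or two elements of `T`.
-/

set_option autoImplicit false
set_option linter.unusedSectionVars false

open Finset
open scoped Classical

namespace Pool.Agent.H552.TO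

open Pool.Agent.H13R3.WB Pool.Agent.H931R3.Bal Pool.Agent.K7.H20 Pool.Agent.R636.BG

/-- a tangle -/
structure Tangle {P : Type} [PartialOrder P] (B T : Finset P) : Prop where
  antiB : ∀ a ∈ B, ∀ b ∈ B, ¬ a < b
  antiT : ∀ a ∈ T, ∀ b ∈ T, ¬ a < b
  notBT : ∀ b ∈ B, ∀ t ∈ T, ¬ t ≤ b
  up : ∀ b ∈ B, ∃ t ∈ T, b < t
  dn : ∀ t ∈ T, ∃ b ∈ B, b < t
  outB : ∀ a ∈ B, ∀ b ∈ B, ∀ w, w ∉ B → w ∉ T → (w < a → w < b) ∧ (a < w → b < w)
  outT : ∀ s ∈ T, ∀ t ∈ T, ∀ w, w ∉ B → w ∉ T → (w < s → w < t) ∧ (s < w → t < w)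

section

variable {P : Type} [Fintype P] [PartialOrder P] {B T : Finset P}

lemma Tangle.dual (h : Tangle B T) : Tangle (P := Pᵒᵈ) (T.map OrderDual.toDual.toEmbedding)
    (B.map OrderDual.toDual.toEmbedding) where
  antiB := by
    intro a ha b hb hab
    rw [mem_map_equiv] at ha hb
    exact h.antiT _ hb _ ha hab
  antiT := by
    intro a ha b hb hab
    rw [mem_map_equiv] at ha hb
    exact h.antiB _ hb _ ha hab
  notBT := by
    intro b hb t ht htb
    rw [mem_map_equiv] at ht hb
    exact h.notBT _ ht _ hb htb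
  up := by
    intro x hx
    rw [mem_map_equiv] at hx
    obtain ⟨w, hw, hwx⟩ := h.dn _ hx
    exact ⟨OrderDual.toDual w, by rw [mem_map_equiv]; exact hw, hwx⟩
  dn := by
    intro x hx
    rw [mem_map_equiv] at hx
    obtain ⟨w, hw, hwx⟩ := h.up _ hx
    exact ⟨OrderDual.toDual w, by rw [mem_map_equiv]; exact hw, hwx⟩
  outB := by
    intro a ha b hb w hw1 hw2
    rw [mem_map_equiv] at ha hb hw1 hw2
    exact (h.outT _ ha _ hb (OrderDual.ofDual w) hw2 hw1).symm
  outT := by
    intro a ha b hb w hw1 hw2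
    rw [mem_map_equiv] at ha hb hw1 hw2
    exact (h.outB _ ha _ hb (OrderDual.ofDual w) hw2 hw1).symm

lemma Tangle.disj (h : Tangle B T) {x : P} (hx : x ∈ B) : x ∉ T :=
  fun hx' => h.notBT x hx x hx' le_rfl

lemma Tangle.low (h : Tangle B T) {a b : P} (ha : a ∈ B) (hb : b ∈ B) {w : P} (hw : w < a) :
    w < b := by
  have h1 : w ∉ B := fun h2 => h.antiB w h2 a ha hw
  have h2 : w ∉ T := fun h3 => h.notBT a ha w h3 hw.le
  exact (h.outB a ha b hb w h1 h2).1 hw

lemma Tangle.seen (h : Tangle B T) : Seen B (B ∪ T) where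
  sub := subset_union_left
  low := fun _ ha _ hb _ => ⟨fun hw => h.low ha hb hw, fun hw => h.low hb ha hw⟩
  abv := by
    intro q hq hqB
    rcases mem_union.1 hq with h1 | h1
    · exact absurd h1 hqB
    · exact h.dn q h1
  out := by
    intro w hw a ha b hb hab
    rw [mem_union, not_or] at hw
    exact (h.outB a ha b hb w hw.1 hw.2).2 hab

/-- at least four lower elements -/
lemma Tangle.large (h : Tangle B T) {ε : ℝ}
    (hseen : ∀ (B Q : Finset P) (K : ℕ), Seen B Q → (∀ a ∈ B, (Q ∩ inc a).card ≤ K) →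
      4 * K + 12 ≤ 9 * B.card → 1 / 3 + ε ≤ balance P)
    (hTB : T.card ≤ B.card) (h4 : 4 ≤ B.card) : 1 / 3 + ε ≤ balance P := by
  apply hseen B (B ∪ T) (B.card + T.card - 2) h.seen
  · intro a ha
    obtain ⟨t, ht, hat⟩ := h.up a ha
    have h1 : (B ∪ T) ∩ inc a ⊆ B.erase a ∪ T.erase t := by
      intro w hw
      rw [mem_inter, mem_inc, mem_union] at hw
      rw [mem_union, mem_erase, mem_erase]
      rcases hw.1 with h2 | h2
      · left
        refine ⟨?_, h2⟩
        rintro rfl
        exact hw.2.1 le_rfl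
      · right
        refine ⟨?_, h2⟩
        rintro rfl
        exact hw.2.1 hat.le
    have h2 := card_le_card h1
    have h3 := card_union_le (B.erase a) (T.erase t)
    rw [card_erase_of_mem ha, card_erase_of_mem ht] at h3
    have h5 : 1 ≤ T.card := card_pos.2 ⟨t, ht⟩
    have h6 : 1 ≤ B.card := card_pos.2 ⟨a, ha⟩
    omega
  · omega

/-- two or three lower elements -/
lemma Tangle.small (h : Tangle B T) {ε : ℝ} (hpg : Semi.PG ε P) (hTB : T.card ≤ B.card)
    (h2 : B.card = 2 ∨ B.card = 3) : 1 / 3 + ε ≤ balance P := by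
  by_contra hcon
  let u : P → Finset P := fun x => T.filter (fun w => x < w)
  have hu : ∀ x w, w ∈ u x ↔ w ∈ T ∧ x < w := by
    intro x w
    simp [u]
  have hpos : ∀ x ∈ B, 1 ≤ (u x).card := by
    intro x hx
    obtain ⟨w, hwT, hw⟩ := h.up x hx
    exact card_pos.2 ⟨w, (hu x w).2 ⟨hwT, hw⟩⟩
  -- the key: no good pair
  have key : ∀ a ∈ B, ∀ b ∈ B, a ≠ b → prob P a b ≤ 1 / 2 → 2 ≤ (u b \ u a).card := by
    intro a ha b hb hab hp
    by_contra hlt
    push Not at hlt
    have hle : (u b \ u a).card ≤ 1 := by omega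
    rw [card_le_one] at hle
    have hmem : ∀ w, b < w → ¬ a < w → w ∈ u b \ u a := by
      intro w h1 h2
      rw [mem_sdiff, hu, hu]
      have h3 : w ∈ T := by
        by_contra h4
        have h5 : w ∉ B := fun h6 => h.antiB b hb w h6 h1
        exact h2 ((h.outB b hb a ha w h5 h4).2 h1)
      exact ⟨⟨h3, h1⟩, fun h4 => h2 h4.2⟩
    rcases hpg a b ⟨hab, fun w hw => h.low ha hb hw, fun w w' h1 h2 h3 h4 => by
        rw [hle w (hmem w h1 h3) w' (hmem w' h2 h4)]; exact Or.inl le_rfl, hp⟩ with h5 | h5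
    · obtain ⟨-, -, z, hz, hz', -, hiff⟩ := h5
      have h6 := (hiff.1 (fun w h1 h2 => hle w (hmem w h1 h2) z (hmem z hz hz'))).2
      obtain ⟨w, hwT, hw⟩ := h.up a ha
      have h7 := hmem z hz hz'
      rw [mem_sdiff, hu] at h7
      exact h.antiT z h7.1.1 w hwT (h6 w hw)
    · exact hcon h5
  have key1 : ∀ a ∈ B, ∀ b ∈ B, a ≠ b → prob P a b ≤ 1 / 2 →
      (u a).card + 2 ≤ T.card ∧ 2 ≤ (u b).card := by
    intro a ha b hb hab hp
    have h1 := key a ha b hb hab hp
    have h3 : (u a).card + (u b \ u a).card ≤ T.card := by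
      rw [← card_union_of_disjoint disjoint_sdiff]
      apply card_le_card
      apply union_subset (filter_subset _ _)
      exact sdiff_subset.trans (filter_subset _ _)
    have h4 : (u b \ u a).card ≤ (u b).card := card_le_card sdiff_subset
    omega
  have key2 : ∀ a ∈ B, ∀ b ∈ B, a ≠ b →
      ((u a).card + 2 ≤ T.card ∧ 2 ≤ (u b).card) ∨ ((u b).card + 2 ≤ T.card ∧ 2 ≤ (u a).card) := by
    intro a ha b hb hab
    have h1 := prob_add hab
    rcases le_total (prob P a b) (1 / 2) with h2 | h2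
    · exact Or.inl (key1 a ha b hb hab h2)
    · exact Or.inr (key1 b hb a ha hab.symm (by linarith))
  rcases h2 with hB | hB
  · obtain ⟨x, y, hxy, hBxy⟩ := card_eq_two.1 hB
    have hx : x ∈ B := by rw [hBxy]; simp
    have hy : y ∈ B := by rw [hBxy]; simp
    have k1 := key2 x hx y hy hxy
    have p1 := hpos x hx
    have p2 := hpos y hy
    omega
  · obtain ⟨x, y, z, hxy, hxz, hyz, hBxyz⟩ := card_eq_three.1 hB
    have hx : x ∈ B := by rw [hBxyz]; simp
    have hy : y ∈ B := by rw [hBxyz]; simp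
    have hz : z ∈ B := by rw [hBxyz]; simp
    have k1 := key2 x hx y hy hxy
    have k2 := key2 x hx z hz hxz
    have k3 := key2 y hy z hz hyz
    have p1 := hpos x hx
    have p2 := hpos y hy
    have p3 := hpos z hz
    omega

end

/-- **The gap** for posets with a tangle -/
theorem tangle_gap : ∃ ε : ℝ, 0 < ε ∧ ε ≤ 1 / 200 ∧
    (∀ (P : Type) [Fintype P] [PartialOrder P] (B Q : Finset P) (K : ℕ), Seen B Q →
      (∀ a ∈ B, (Q ∩ inc a).card ≤ K) → 4 * K + 12 ≤ 9 * B.card → 1 / 3 + ε ≤ balance P) ∧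
    ∀ (P : Type) [Fintype P] [PartialOrder P] (B T : Finset P), Tangle B T →
      3 ≤ B.card + T.card → 1 / 3 + ε ≤ balance P := by
  obtain ⟨ε1, h1, h11, hseen⟩ := seen_gap
  obtain ⟨ε2, h2, hpair⟩ := pair_gap
  set ε : ℝ := min ε1 ε2 with hεdef
  have hε0 : 0 < ε := lt_min h1 h2
  have e1 : ε ≤ ε1 := min_le_left _ _
  have e2 : ε ≤ ε2 := min_le_right _ _
  have pg : ∀ (P : Type) [Fintype P] [PartialOrder P], Semi.PG ε P := by
    intro P _ _ a b hab
    rcases (hpair P).1 a b hab with h3 | h3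
    · exact Or.inl h3
    · right; linarith
  have seen : ∀ (P : Type) [Fintype P] [PartialOrder P] (B Q : Finset P) (K : ℕ), Seen B Q →
      (∀ a ∈ B, (Q ∩ inc a).card ≤ K) → 4 * K + 12 ≤ 9 * B.card → 1 / 3 + ε ≤ balance P := by
    intro P _ _ B Q K g1 g2 g3
    have := hseen P B Q K g1 g2 g3
    linarith
  refine ⟨ε, hε0, by linarith, seen, ?_⟩
  have key : ∀ (P : Type) [Fintype P] [PartialOrder P] (B T : Finset P), Tangle B T →
      3 ≤ B.card + T.card → T.card ≤ B.card → 1 / 3 + ε ≤ balance P := by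
    intro P _ _ B T h h3 hTB
    rcases Nat.lt_or_ge B.card 4 with h4 | h4
    · exact h.small (pg P) hTB (by omega)
    · exact h.large (seen P) hTB h4
  intro P _ _ B T h h3
  rcases Nat.le_total T.card B.card with hTB | hTB
  · exact key P B T h h3 hTB
  · have hne : T.Nonempty := card_pos.1 (by omega)
    have : Nonempty P := ⟨hne.choose⟩
    rw [← balance_dual P]
    apply key Pᵒᵈ _ _ h.dual
    · rw [card_map, card_map]
      omega
    · rw [card_map, card_map]
      exact hTB

end Pool.Agent.H552.TO
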