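import Mathlib
import Pool.Agent.H552.TO.Tangle

/-!
# Posets in which `2 + 2` generates tangles

In a `(3 + 1)`-free poset the lower elements of an induced `2 + 2` have the same lower elements and its
upper elements have the same upper elements.  In a finite poset with this property every induced `2 + 2`
lies in a tangle.
-/

set_option autoImplicit false
set_option linter.unusedSectionVars false

open Finset
open scoped Classical

namespace Pool.Agent.H552.TO

open Pool.Agent.H13R3.WB Pool.Agent.H931R3.Bal Pool.Agent.K7.H20 Pool.Agent.R636.BG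

/-- There are no `a < b < c` and `x` such that `x` is incomparable to `a`, `b` and `c`. -/
def ThreeOneFree (P : Type) [PartialOrder P] : Prop :=
  ∀ a b c x : P, a < b → b < c → (x ≤ a ∨ a ≤ x) ∨ (x ≤ b ∨ b ≤ x) ∨ (x ≤ c ∨ c ≤ x)

/-- `{a, b, c, d}` is an induced `2 + 2`, with the relations `a < b` and `c < d`. -/
def TwoTwo {P : Type} [PartialOrder P] (a b c d : P) : Prop := a < b ∧ c < d ∧ ¬ a < d ∧ ¬ c < b

/-- The lower elements of an induced `2 + 2` have the same lower elements and its upper elements have the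
same upper elements. -/
def Tight (P : Type) [PartialOrder P] : Prop :=
  ∀ a b c d : P, TwoTwo a b c d → (∀ w, w < a ↔ w < c) ∧ (∀ w, b < w ↔ d < w)

section

variable {P : Type} [PartialOrder P]

lemma ThreeOneFree.or (h : ThreeOneFree P) {a b c x : P} (hab : a < b) (hbc : b < c) :
    a < x ∨ x < c := by
  rcases h a b c x hab hbc with (h1 | h1) | (h1 | h1) | (h1 | h1)
  · exact Or.inr (lt_of_le_of_lt h1 (hab.trans hbc))
  · rcases h1.lt_or_eq with h2 | h2
    · exact Or.inl h2
    · right; rw [← h2]; exact hab.trans hbc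
  · exact Or.inr (lt_of_le_of_lt h1 hbc)
  · exact Or.inl (lt_of_lt_of_le hab h1)
  · rcases h1.lt_or_eq with h2 | h2
    · exact Or.inr h2
    · left; rw [h2]; exact hab.trans hbc
  · exact Or.inl (lt_of_lt_of_le (hab.trans hbc) h1)

lemma TwoTwo.symm {a b c d : P} (h : TwoTwo a b c d) : TwoTwo c d a b :=
  ⟨h.2.1, h.1, h.2.2.2, h.2.2.1⟩

lemma ThreeOneFree.tight (h : ThreeOneFree P) : Tight P := by
  have h1 : ∀ a b c d : P, TwoTwo a b c d → ∀ w, w < a → w < c := by
    intro a b c d ⟨hab, _, _, hcb⟩ w hw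
    rcases h.or (x := c) hw hab with h2 | h2
    · exact h2
    · exact absurd h2 hcb
  have h2 : ∀ a b c d : P, TwoTwo a b c d → ∀ w, b < w → d < w := by
    intro a b c d ⟨hab, _, had, _⟩ w hw
    rcases h.or (x := d) hab hw with h2 | h2
    · exact absurd h2 had
    · exact h2
  exact fun a b c d h3 => ⟨fun w => ⟨h1 a b c d h3 w, h1 c d a b h3.symm w⟩,
    fun w => ⟨h2 a b c d h3 w, h2 c d a b h3.symm w⟩⟩

/-- the lower elements of an induced `2 + 2` -/
def Bot (a c : P) : Prop := ∃ b d, TwoTwo a b c d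

lemma Bot.symm {a c : P} (h : Bot a c) : Bot c a := by
  obtain ⟨b, d, h⟩ := h
  exact ⟨d, b, h.symm⟩

/-- the component of `x` -/
def Conn (x y : P) : Prop := Relation.ReflTransGen Bot x y

lemma Conn.low (h : Tight P) {x y : P} (hxy : Conn x y) (w : P) : w < x ↔ w < y := by
  induction hxy with
  | refl => rfl
  | tail _ h2 ih =>
    obtain ⟨b, d, h2⟩ := h2
    exact ih.trans ((h _ _ _ _ h2).1 w)

lemma Conn.symm {x y : P} (h : Conn x y) : Conn y x := by
  induction h with
  | refl => exact Relation.ReflTransGen.refl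
  | tail _ h2 ih => exact Relation.ReflTransGen.head h2.symm ih

lemma Conn.trans {x y z : P} (h : Conn x y) (h' : Conn y z) : Conn x z :=
  Relation.ReflTransGen.trans h h'

/-- two elements with the same upper elements, and the same lower elements outside the component of
`x0` -/
def Same (x0 : P) (s t : P) : Prop :=
  (∀ w, s < w ↔ t < w) ∧ ∀ w, ¬ Conn x0 w → (w < s ↔ w < t)

lemma Same.symm {x0 s t : P} (h : Same x0 s t) : Same x0 t s :=
  ⟨fun w => (h.1 w).symm, fun w hw => (h.2 w hw).symm⟩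

lemma Same.trans {x0 s t u : P} (h : Same x0 s t) (h' : Same x0 t u) : Same x0 s u :=
  ⟨fun w => (h.1 w).trans (h'.1 w), fun w hw => (h.2 w hw).trans (h'.2 w hw)⟩

/-- the upper elements of an induced `2 + 2` with lower elements in the component of `x0` -/
lemma same_of (h : Tight P) {x0 a b c d : P} (ha : Conn x0 a) (hc : Conn x0 c)
    (h2 : TwoTwo a b c d) : Same x0 b d := by
  have key : ∀ a b c d : P, Conn x0 c → TwoTwo a b c d → ∀ w, ¬ Conn x0 w → w < b → w < d := by
    intro a b c d hc ⟨hab, hcd, had, hcb⟩ w hw hwb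
    by_contra hwd
    have h3 : TwoTwo c d w b := ⟨hcd, hwb, hcb, hwd⟩
    exact hw (hc.trans (Relation.ReflTransGen.single ⟨d, b, h3⟩))
  exact ⟨(h _ _ _ _ h2).2, fun w hw => ⟨key a b c d hc h2 w hw, key c d a b ha h2.symm w hw⟩⟩

/-- `t` distinguishes `a` and `c` -/
def Dis (a c t : P) : Prop := (a < t ∧ ¬ c < t) ∨ (c < t ∧ ¬ a < t)

/-- all elements which distinguish two elements of the component of `x0` which are the lower elements of
a `2 + 2` are alike -/
lemma same_edge (h : Tight P) {x0 a c : P} (ha : Conn x0 a) (hac : Bot a c) {s t : P}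
    (hs : Dis a c s) (ht : Dis a c t) : Same x0 s t := by
  have hc : Conn x0 c := ha.trans (Relation.ReflTransGen.single hac)
  obtain ⟨b, d, hab, hcd, had, hcb⟩ := hac
  have hb : ∀ s, Dis a c s → Same x0 s b := by
    intro s hs
    rcases hs with ⟨h1, h2⟩ | ⟨h1, h2⟩
    · have h3 : Same x0 s d := same_of h ha hc ⟨h1, hcd, had, h2⟩
      have h4 : Same x0 b d := same_of h ha hc ⟨hab, hcd, had, hcb⟩
      exact h3.trans h4.symm
    · exact same_of h hc ha ⟨h1, hab, hcb, h2⟩
  exact (hb s hs).trans (hb t ht).symm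

/-- neighbouring edges -/
lemma same_step (h : Tight P) {x0 a b c : P} (hb : Conn x0 b) (hab : Bot a b) (hbc : Bot b c) :
    ∃ s t, Dis a b s ∧ Dis b c t ∧ Same x0 s t := by
  have ha : Conn x0 a := hb.trans (Relation.ReflTransGen.single hab.symm)
  have hc : Conn x0 c := hb.trans (Relation.ReflTransGen.single hbc)
  obtain ⟨t1, t2, h1, h2, h3, h4⟩ := hab
  obtain ⟨s1, s2, g1, g2, g3, g4⟩ := hbc
  -- `a < t1`, `b < t2`, `b < s1`, `c < s2`
  by_cases e1 : a < s1
  · by_cases e2 : c < t2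
    · -- `s1` is above `a`, `b` and not above `c`; `t2` is above `b`, `c` and not above `a`
      exact ⟨t2, s1, Or.inr ⟨h2, h3⟩, Or.inl ⟨g1, g4⟩,
        (same_of h ha hc ⟨e1, e2, h3, g4⟩).symm⟩
    · exact ⟨t2, t2, Or.inr ⟨h2, h3⟩, Or.inl ⟨h2, e2⟩, ⟨fun _ => Iff.rfl, fun _ _ => Iff.rfl⟩⟩
  · exact ⟨t1, s1, Or.inl ⟨h1, h4⟩, Or.inl ⟨g1, g4⟩, same_of h ha hb ⟨h1, g1, e1, h4⟩⟩

/-- all elements which distinguish elements of the component are alike -/
lemma same_all (h : Tight P) {x0 y0 t0 : P} (h0 : Bot x0 y0) (ht0 : Dis x0 y0 t0) {b : P}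
    (hb : Conn x0 b) : ∀ c t, Bot b c → Dis b c t → Same x0 t t0 := by
  induction hb with
  | refl =>
    intro c t hc ht
    obtain ⟨s, s', h1, h2, h3⟩ := same_step h (x0 := x0) Relation.ReflTransGen.refl h0.symm hc
    have h4 : Same x0 t s' := same_edge h Relation.ReflTransGen.refl hc ht h2
    have h5 : Same x0 s t0 := by
      apply same_edge h Relation.ReflTransGen.refl h0 _ ht0
      rcases h1 with h1 | h1
      · exact Or.inr h1
      · exact Or.inl h1
    exact h4.trans (h3.symm.trans h5)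
  | @tail b b' hb hbb ih =>
    intro c t hc ht
    have hb' : Conn x0 b' := Relation.ReflTransGen.tail hb hbb
    obtain ⟨s, s', h1, h2, h3⟩ := same_step h hb' hbb hc
    have h4 : Same x0 t s' := same_edge h hb' hc ht h2
    exact h4.trans (h3.symm.trans (ih b' s hbb h1))

/-- an element which distinguishes two elements of the component distinguishes two neighbours -/
lemma exists_edge {x0 b c t : P} (hb : Conn x0 b) (hc : Conn x0 c) (h1 : b < t) (h2 : ¬ c < t) :
    ∃ b' c', Conn x0 b' ∧ Bot b' c' ∧ Dis b' c' t := by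
  have h3 : Conn b c := hb.symm.trans hc
  clear hc
  induction h3 with
  | refl => exact absurd h1 h2
  | @tail c c' h4 h5 ih =>
    by_cases h6 : c < t
    · exact ⟨c, c', hb.trans h4, h5, Or.inl ⟨h6, h2⟩⟩
    · exact ih h6

end

/-- **Tangles from `2 + 2`** -/
theorem exists_tangle {P : Type} [Fintype P] [PartialOrder P] (h : Tight P) {x0 b0 y0 d0 : P}
    (h2 : TwoTwo x0 b0 y0 d0) : ∃ B T : Finset P, Tangle B T ∧ 3 ≤ B.card + T.card := by
  have hxy : Bot x0 y0 := ⟨b0, d0, h2⟩
  have hd0 : Dis x0 y0 b0 := Or.inl ⟨h2.1, h2.2.2.2⟩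
  set B : Finset P := univ.filter (fun y => Conn x0 y) with hB
  set T : Finset P := univ.filter (fun t => ∃ b c, Conn x0 b ∧ Conn x0 c ∧ b < t ∧ ¬ c < t) with hT
  have mB : ∀ y, y ∈ B ↔ Conn x0 y := fun y => by rw [hB, mem_filter]; simp
  have mT : ∀ t, t ∈ T ↔ ∃ b c, Conn x0 b ∧ Conn x0 c ∧ b < t ∧ ¬ c < t :=
    fun t => by rw [hT, mem_filter]; simp
  have low : ∀ y, Conn x0 y → ∀ w, w < x0 ↔ w < y := fun y hy w => hy.low h w
  have low2 : ∀ a b, Conn x0 a → Conn x0 b → ∀ w, w < a → w < b :=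
    fun a b ha hb w hw => (low b hb w).1 ((low a ha w).2 hw)
  have antiB : ∀ a b, Conn x0 a → Conn x0 b → ¬ a < b :=
    fun a b ha hb hab => lt_irrefl _ (low2 b a hb ha a hab)
  have sameT : ∀ t ∈ T, Same x0 t b0 := by
    intro t ht
    obtain ⟨b, c, hb, hc, h3, h4⟩ := (mT t).1 ht
    obtain ⟨b', c', hb', hbc, hd⟩ := exists_edge hb hc h3 h4
    exact same_all h hxy hd0 hb' c' t hbc hd
  have hB1 : x0 ∈ B := (mB x0).2 Relation.ReflTransGen.refl
  have hB2 : y0 ∈ B := (mB y0).2 (Relation.ReflTransGen.single hxy)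
  have hT1 : b0 ∈ T := (mT b0).2 ⟨x0, y0, (mB _).1 hB1, (mB _).1 hB2, h2.1, h2.2.2.2⟩
  refine ⟨B, T, ⟨?_, ?_, ?_, ?_, ?_, ?_, ?_⟩, ?_⟩
  · exact fun a ha b hb => antiB a b ((mB a).1 ha) ((mB b).1 hb)
  · intro s hs t ht hst
    have h3 := (sameT s hs).trans (sameT t ht).symm
    exact lt_irrefl _ ((h3.1 t).1 hst)
  · intro b hb t ht htb
    obtain ⟨a, c, ha, hc, h3, h4⟩ := (mT t).1 ht
    exact antiB a b ha ((mB b).1 hb) (lt_of_lt_of_le h3 htb)
  · intro b hb
    have hb' := (mB b).1 hb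
    -- `b` has a neighbour
    obtain ⟨c, hc⟩ : ∃ c, Bot b c := by
      rcases Relation.ReflTransGen.cases_tail hb' with h3 | ⟨c, _, h4⟩
      · exact ⟨y0, h3 ▸ hxy⟩
      · exact ⟨c, h4.symm⟩
    obtain ⟨t, d, h3⟩ := hc
    refine ⟨t, (mT t).2 ⟨b, c, hb', hb'.trans (Relation.ReflTransGen.single ⟨t, d, h3⟩), h3.1, h3.2.2.2⟩,
      h3.1⟩
  · intro t ht
    obtain ⟨a, c, ha, hc, h3, h4⟩ := (mT t).1 ht
    exact ⟨a, (mB a).2 ha, h3⟩
  · intro a ha b hb w hwB hwT
    have ha' := (mB a).1 ha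
    have hb' := (mB b).1 hb
    refine ⟨low2 a b ha' hb' w, fun haw => ?_⟩
    by_contra hbw
    exact hwT ((mT w).2 ⟨a, b, ha', hb', haw, hbw⟩)
  · intro s hs t ht w hwB hwT
    have h3 := (sameT s hs).trans (sameT t ht).symm
    exact ⟨(h3.2 w (fun h4 => hwB ((mB w).2 h4))).1, (h3.1 w).1⟩
  · have h3 : ({x0, y0} : Finset P) ⊆ B := by
      intro z hz
      rw [mem_insert, mem_singleton] at hz
      rcases hz with rfl | rfl
      · exact hB1
      · exact hB2
    have hne : x0 ≠ y0 := by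
      rintro rfl
      exact h2.2.2.1 h2.2.1
    have h4 := card_le_card h3
    rw [card_pair hne] at h4
    have h5 : 1 ≤ T.card := card_pos.2 ⟨b0, hT1⟩
    omega

end Pool.Agent.H552.TO
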