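import Mathlib
import Pool.Agent.H552.TO.Struct
import Pool.Graph.R_seed8.H931R3.Bal12

/-!
# The gap above `1/3` for `(3 + 1)`-free posets
-/

set_option autoImplicit false
set_option linter.unusedSectionVars false

open Finset
open scoped Classical

namespace Pool.Agent.H552.TO

open Pool.Agent.H13R3.WB Pool.Agent.H931R3.Bal Pool.Agent.K7.H20 Pool.Agent.R636.BG

/-- The elements of `B` have the same lower elements, and each of them is incomparable to at most
`(9 |B| - 12) / 4` elements `w` which lie in `B` or above an element of `B`. -/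
def Crowd {P : Type} [PartialOrder P] (B : Finset P) (K : ℕ) : Prop :=
  (∀ a ∈ B, ∀ b ∈ B, ∀ w, w < a ↔ w < b) ∧
  (∀ a ∈ B, Nat.card {w : P // ¬ a ≤ w ∧ ¬ w ≤ a ∧ (w ∈ B ∨ ∃ b ∈ B, b < w)} ≤ K) ∧
  4 * K + 12 ≤ 9 * B.card

/-- The smallest class of posets which contains

* the nonempty `(3 + 1)`-free posets, and the nonempty posets without an antichain of three elements,
* the posets which contain an induced `2 + 2` and in which the lower elements of every induced `2 + 2`
  have the same lower elements and its upper elements have the same upper elements,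
* the posets which contain a tangle with at least three elements,
* the posets with a crowd (at least two elements with the same lower elements, each incomparable to few
  elements which are in the crowd or above one of its elements),

and which is closed under isomorphism, duality, disjoint sums and direct sums, and contains every poset
that has a nonempty autonomous subset in the class which is not in `𝒟`. -/
inductive Cls : (P : Type) → [PartialOrder P] → Prop
  | free (P : Type) [PartialOrder P] : Nonempty P → ThreeOneFree P → Cls P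
  | thin (P : Type) [PartialOrder P] : Nonempty P →
      (∀ s : Finset P, IsAntichain (· ≤ ·) (s : Set P) → s.card ≤ 2) → Cls P
  | tight (P : Type) [PartialOrder P] : Tight P → (∃ a b c d : P, TwoTwo a b c d) → Cls P
  | tangle (P : Type) [PartialOrder P] (B T : Finset P) : Tangle B T → 3 ≤ B.card + T.card → Cls P
  | crowd (P : Type) [PartialOrder P] (B : Finset P) (K : ℕ) : Crowd B K → Cls P
  | dual (P R : Type) [PartialOrder P] [PartialOrder R] : Cls P → Nonempty (R ≃o Pᵒᵈ) → Cls R
  | disj (P Q R : Type) [PartialOrder P] [PartialOrder Q] [PartialOrder R] :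
      Cls P → Cls Q → Nonempty (R ≃o (P ⊕ Q)) → Cls R
  | direct (P Q R : Type) [PartialOrder P] [PartialOrder Q] [PartialOrder R] :
      Cls P → Cls Q → Nonempty (R ≃o (P ⊕ₗ Q)) → Cls R
  | auto (R : Type) [PartialOrder R] (M : Set R) :
      M.Nonempty → Autonomous M → Cls M → ¬ InD M → Cls R

/-- the gap for tight posets which are not interval orders -/
lemma tight_gap {ε : ℝ} (ht : ∀ (P : Type) [Fintype P] [PartialOrder P] (B T : Finset P), Tangle B T →
      3 ≤ B.card + T.card → 1 / 3 + ε ≤ balance P) (P : Type) [Fintype P] [PartialOrder P]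
    (h : Tight P) (h2 : ∃ a b c d : P, TwoTwo a b c d) : 1 / 3 + ε ≤ balance P := by
  obtain ⟨a, b, c, d, h2⟩ := h2
  obtain ⟨B, T, h3, h4⟩ := exists_tangle h h2
  exact ht P B T h3 h4

lemma semiorder_of {P : Type} [PartialOrder P] (h : ThreeOneFree P)
    (h2 : ¬ ∃ a b c d : P, TwoTwo a b c d) : Semi.Semiorder P := by
  refine ⟨fun a b c d hab hcd => ?_, fun a b c x hab hbc => h.or hab hbc⟩
  by_contra hcon
  rw [not_or] at hcon
  exact h2 ⟨a, b, c, d, hab, hcd, hcon.1, hcon.2⟩

/-- the gap for all posets in the class -/
theorem all_gap : ∃ ε : ℝ, 0 < ε ∧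
    ∀ (R : Type) [Fintype R] [PartialOrder R], Cls R → InD R ∨ 1 / 3 + ε ≤ balance R := by
  obtain ⟨ε1, h1, h11, hseen, htan⟩ := tangle_gap
  obtain ⟨ε2, h2, h22, hsemi⟩ := Semi.semi_gap
  set ε : ℝ := min ε1 ε2 with hεdef
  have hε0 : 0 < ε := lt_min h1 h2
  have e1 : ε ≤ ε1 := min_le_left _ _
  have e2 : ε ≤ ε2 := min_le_right _ _
  have tan : ∀ (P : Type) [Fintype P] [PartialOrder P] (B T : Finset P), Tangle B T →
      3 ≤ B.card + T.card → 1 / 3 + ε ≤ balance P := by
    intro P _ _ B T g1 g2
    have := htan P B T g1 g2
    linarith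
  have crowd : ∀ (P : Type) [Fintype P] [PartialOrder P] (B : Finset P) (K : ℕ), Crowd B K →
      1 / 3 + ε ≤ balance P := by
    intro P _ _ B K ⟨hB, hK, hBK⟩
    have hS : Seen B (B ∪ univ.filter (fun w => (∃ b ∈ B, b < w) ∧ ∃ b ∈ B, ¬ b < w)) := by
      refine ⟨subset_union_left, hB, ?_, ?_⟩
      · intro q hq hqB
        rcases mem_union.1 hq with h3 | h3
        · exact absurd h3 hqB
        · exact (mem_filter.1 h3).2.1
      · intro w hw a ha b hb hab
        rw [mem_union, not_or, mem_filter] at hw
        by_contra hbw
        exact hw.2 ⟨mem_univ _, ⟨a, ha, hab⟩, ⟨b, hb, hbw⟩⟩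
    have := hseen P B _ K hS ?_ hBK
    · linarith
    · intro a ha
      refine le_trans ?_ (hK a ha)
      rw [Nat.card_eq_fintype_card, Fintype.card_subtype]
      apply card_le_card
      intro w hw
      rw [mem_inter, mem_union, mem_filter, mem_inc] at hw
      rw [mem_filter]
      refine ⟨mem_univ _, hw.2.1, hw.2.2, ?_⟩
      rcases hw.1 with h3 | h3
      · exact Or.inl h3
      · exact Or.inr h3.2.1
  refine ⟨ε, hε0, ?_⟩
  have key : ∀ (R : Type) [PartialOrder R], Cls R →
      ∀ [Fintype R], Nonempty R ∧ (InD R ∨ 1 / 3 + ε ≤ balance R) := by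
    intro R _ h
    induction h with
    | free P hne hP =>
      intro _
      refine ⟨hne, ?_⟩
      by_cases h3 : ∃ a b c d : P, TwoTwo a b c d
      · exact Or.inr (tight_gap tan P hP.tight h3)
      · rcases hsemi P (semiorder_of hP h3) with h4 | h4
        · exact Or.inl h4
        · right; linarith
    | thin P hne hP =>
      intro _
      refine ⟨hne, ?_⟩
      rcases Pool.Agent.TH153.WQ.width_two_gap P hP with h4 | h4
      · exact Or.inl h4
      · right
        refine le_trans ?_ h4
        unfold Pool.Agent.TH153.WQ.cR
        linarith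
    | tight P hP h3 =>
      intro _
      obtain ⟨a, ha⟩ := h3
      exact ⟨⟨a⟩, Or.inr (tight_gap tan P hP ⟨a, ha⟩)⟩
    | tangle P B T hT h3 =>
      intro _
      have hne : Nonempty P := by
        rcases B.eq_empty_or_nonempty with h4 | ⟨b, -⟩
        · rw [h4, card_empty] at h3
          obtain ⟨t, -⟩ := card_pos.1 (by omega : 0 < T.card)
          exact ⟨t⟩
        · exact ⟨b⟩
      exact ⟨hne, Or.inr (tan P B T hT h3)⟩
    | crowd P B K hB =>
      intro _
      have hne : Nonempty P := by
        have h3 := hB.2.2
        obtain ⟨t, -⟩ := card_pos.1 (by omega : 0 < B.card)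
        exact ⟨t⟩
      exact ⟨hne, Or.inr (crowd P B K hB)⟩
    | dual P R _ e ihP =>
      intro hR
      obtain ⟨e⟩ := e
      have fP : Finite P := Finite.of_injective (fun x : P => e.symm (OrderDual.toDual x))
        (fun a b h => OrderDual.toDual.injective (e.symm.injective h))
      have := Fintype.ofFinite P
      have nP : Nonempty P := (ihP).1
      refine ⟨⟨e.symm (OrderDual.toDual nP.some)⟩, ?_⟩
      rcases ihP.2 with h3 | h3
      · exact Or.inl (InD.iso (InD_dual h3) e.symm)
      · right
        rw [← balance_dual] at h3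
        exact h3.trans (balance_iso e.symm)
    | disj P Q R _ _ e ihP ihQ =>
      intro hR
      obtain ⟨e⟩ := e
      have fP : Finite P := Finite.of_injective (fun x : P => e.symm (Sum.inl x))
        (fun a b h => Sum.inl_injective (e.symm.injective h))
      have fQ : Finite Q := Finite.of_injective (fun x : Q => e.symm (Sum.inr x))
        (fun a b h => Sum.inr_injective (e.symm.injective h))
      have := Fintype.ofFinite P
      have := Fintype.ofFinite Q
      have nP : Nonempty P := (ihP).1
      have nQ : Nonempty Q := (ihQ).1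
      refine ⟨⟨e.symm (Sum.inl nP.some)⟩, ?_⟩
      rcases gap_sum (c := 1 / 3 + ε) (by linarith) ihP.2 ihQ.2 with h3 | h3
      · exact Or.inl (InD.iso h3 e.symm)
      · exact Or.inr (h3.trans (balance_iso e.symm))
    | direct P Q R _ _ e ihP ihQ =>
      intro hR
      obtain ⟨e⟩ := e
      have fP : Finite P := Finite.of_injective (fun x : P => e.symm (toLex (Sum.inl x)))
        (fun a b h => Sum.inl_injective (toLex.injective (e.symm.injective h)))
      have fQ : Finite Q := Finite.of_injective (fun x : Q => e.symm (toLex (Sum.inr x)))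
        (fun a b h => Sum.inr_injective (toLex.injective (e.symm.injective h)))
      have := Fintype.ofFinite P
      have := Fintype.ofFinite Q
      have nP : Nonempty P := (ihP).1
      have nQ : Nonempty Q := (ihQ).1
      refine ⟨⟨e.symm (toLex (Sum.inl nP.some))⟩, ?_⟩
      rcases gap_lex (c := 1 / 3 + ε) ihP.2 ihQ.2 with h3 | h3
      · exact Or.inl (InD.iso h3 e.symm)
      · exact Or.inr (h3.trans (balance_iso e.symm))
    | auto R M hne hM _ hD ih =>
      intro hR
      have fM : Finite M := inferInstance
      have := Fintype.ofFinite M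
      have nM : Nonempty M := hne.to_subtype
      refine ⟨⟨hne.some⟩, Or.inr ?_⟩
      rcases (ih).2 with h | h
      · exact absurd h hD
      · exact h.trans (balance_autonomous hM)
  intro R _ _ hR
  exact (key R hR).2

end Pool.Agent.H552.TO
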