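import Mathlib
import Pool.Agent.H552.TO.Final
import Pool.Graph.R_seed8.H931R3.Bal14

/-!
# The balance constants of the posets of the class `𝒟`

A poset of the class `𝒟` is a chain, of balance constant zero, or has balance constant exactly `1/3`.
-/

set_option autoImplicit false
set_option linter.unusedSectionVars false

open Finset

namespace Pool.Agent.H552.TO

open Pool.Agent.H13R3.WB Pool.Agent.H931R3.Bal

lemma min_le_of_lt {P : Type} [Fintype P] [PartialOrder P] {x y : P} (h : x < y ∨ y < x) {c : ℝ}
    (hc : 0 ≤ c) : min (prob P x y) (prob P y x) ≤ c := by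
  rw [prob_eq rfl, prob_eq rfl]
  rcases h with h | h
  · refine (min_le_right _ _).trans ?_
    rw [pr_zero_of_lt h]
    exact hc
  · refine (min_le_left _ _).trans ?_
    rw [pr_zero_of_lt h]
    exact hc

lemma balance_lex_le {P Q : Type} [Fintype P] [PartialOrder P] [Fintype Q] [PartialOrder Q]
    [Nonempty P] [Nonempty Q] {c : ℝ} (hc : 0 ≤ c) (hP : balance P ≤ c) (hQ : balance Q ≤ c) :
    balance (P ⊕ₗ Q) ≤ c := by
  have nS : Nonempty ((P ⊕ₗ Q) × (P ⊕ₗ Q)) := by
    obtain ⟨x⟩ := (inferInstance : Nonempty P)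
    exact ⟨(toLex (Sum.inl x), toLex (Sum.inl x))⟩
  have k1 : ∀ x y : P, min (prob (P ⊕ₗ Q) (toLex (Sum.inl x)) (toLex (Sum.inl y)))
      (prob (P ⊕ₗ Q) (toLex (Sum.inl y)) (toLex (Sum.inl x))) ≤ c := by
    intro x y
    rw [prob_eq (n := Fintype.card P + Fintype.card Q) card_lexS,
      prob_eq (n := Fintype.card P + Fintype.card Q) card_lexS, pr_lex_inl rfl rfl,
      pr_lex_inl rfl rfl]
    have h3 := (le_balance x y).trans hP
    rw [prob_eq rfl, prob_eq rfl] at h3
    exact h3
  have k2 : ∀ x y : Q, min (prob (P ⊕ₗ Q) (toLex (Sum.inr x)) (toLex (Sum.inr y)))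
      (prob (P ⊕ₗ Q) (toLex (Sum.inr y)) (toLex (Sum.inr x))) ≤ c := by
    intro x y
    rw [prob_eq (n := Fintype.card P + Fintype.card Q) card_lexS,
      prob_eq (n := Fintype.card P + Fintype.card Q) card_lexS, pr_lex_inr rfl rfl,
      pr_lex_inr rfl rfl]
    have h3 := (le_balance x y).trans hQ
    rw [prob_eq rfl, prob_eq rfl] at h3
    exact h3
  conv_lhs => unfold balance
  apply ciSup_le
  rintro ⟨x, y⟩
  simp only
  rcases x with x | x <;> rcases y with y | y
  · exact k1 x y
  · exact min_le_of_lt (Or.inl (Sum.Lex.sep _ _)) hc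
  · exact min_le_of_lt (Or.inr (Sum.Lex.sep _ _)) hc
  · exact k2 x y

lemma InD_le_third {P : Type} [PartialOrder P] (h : InD P) : ∀ [Fintype P], balance P ≤ 1 / 3 := by
  induction h with
  | one P e =>
    intro _
    obtain ⟨e⟩ := e
    have : Nonempty P := ⟨e.symm 0⟩
    rw [balance_chain]
    · norm_num
    · intro x y
      left
      exact e.le_iff_le.mp (by rw [Subsingleton.elim (e x) (e y)])
  | three P e =>
    intro _
    obtain ⟨e⟩ := e
    have : Nonempty P := ⟨e.symm (Sum.inr 0)⟩
    exact (balance_iso e).trans balance_EE_le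
  | sum P Q R hP hQ e ihP ihQ =>
    intro _
    obtain ⟨e⟩ := e
    have fP : Finite P := Finite.of_injective (fun x : P => e.symm (toLex (Sum.inl x)))
      (fun a b h => Sum.inl_injective (toLex.injective (e.symm.injective h)))
    have fQ : Finite Q := Finite.of_injective (fun x : Q => e.symm (toLex (Sum.inr x)))
      (fun a b h => Sum.inr_injective (toLex.injective (e.symm.injective h)))
    have := Fintype.ofFinite P
    have := Fintype.ofFinite Q
    have nP := InD.nonempty hP
    have nQ := InD.nonempty hQ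
    have nR : Nonempty R := ⟨e.symm (toLex (Sum.inl nP.some))⟩
    exact (balance_iso e).trans (balance_lex_le (by norm_num) ihP ihQ)

/-- A poset of the class `𝒟` is a chain, of balance constant zero, or has balance constant `1/3`. -/
theorem InD_values {P : Type} [Fintype P] [PartialOrder P] (h : InD P) :
    ((∀ x y : P, x ≤ y ∨ y ≤ x) ∧ balance P = 0) ∨ balance P = 1 / 3 := by
  have := InD.nonempty h
  rcases InD_third h with h1 | h1
  · exact Or.inl ⟨h1, balance_chain h1⟩
  · exact Or.inr (le_antisymm (InD_le_third h) h1)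

end Pool.Agent.H552.TO
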